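import Pool.Agent.Helper24.StarSubdivProof

set_option autoImplicit false

namespace Pool.Agent.Results.MP_635878_co.StarSubdivMax

open Pool.Agent.Helper24.StarSubdiv

/-- For every `n ≥ 4` the tree `R_n` attains the maximum of `av1` over all trees on `n`
vertices. -/
theorem result : ∀ n : ℕ, 4 ≤ n →
    (R n).IsTree ∧ ∀ T : SimpleGraph (Fin n), T.IsTree → av1 T ≤ av1 (R n) :=
  main

end Pool.Agent.Results.MP_635878_co.StarSubdivMax
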